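import Mathlib
import Pool.Agent.H57.Q1.Strands
import Pool.Agent.H75.TwoArm.Strand

set_option autoImplicit false
open Finset

/-! # Families of strand pieces and disjoint arms

`fam_open`, `fam_dual` : finitely many pieces of strands (orbits of `pv L`), with pairwise distinct
corners, all from the inside to the outside of an annulus or all from the outside to the inside, whose
open (closed) labels all belong to `ω` (`E`), give as many disjoint open (dual) arms. `fam_open_nx`,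
`fam_dual_nx` : the same for `nx L`. (Family version of `open_arms`, `dual_arms` of helper57.) -/

namespace Pool.Agent.H34.Q1

open Pool.Agent.H57.Flow Pool.Agent.H57.Q1
open Pool.Agent.H75.Perc Pool.Agent.H75.TwoArm Pool.Agent.H49.Perc

/-- near / far points -/
def Nr (x : ℤ × ℤ) (ρ : ℤ) (v : ℤ × ℤ) : Prop := |v.1 - x.1| ≤ ρ ∧ |v.2 - x.2| ≤ ρ
def Fr (x : ℤ × ℤ) (M : ℤ) (v : ℤ × ℤ) : Prop := M ≤ |v.1 - x.1| ∨ M ≤ |v.2 - x.2|

open Classical in
/-- the darts of a family of pieces -/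
lemma fam_darts {ι V : Type*} [DecidableEq ι] {tl hd : ℤ × ℤ → V} {I : Finset ι}
    {z : ι → ℕ → ℤ × ℤ} {n : ι → ℕ} {φ : ι → ℕ → V} {op : ι → ℕ → Prop}
    (h1 : ∀ i ∈ I, ∀ t < n i, op i t → tl (z i t) = φ i t ∧ hd (z i t) = φ i (t + 1))
    (h2 : ∀ i ∈ I, ∀ t < n i, ¬ op i t → φ i (t + 1) = φ i t)
    (hinj : ∀ i ∈ I, ∀ j ∈ I, ∀ s < n i, ∀ t < n j, z i s = z j t → i = j ∧ s = t) (S : Set V) :
    net tl hd (I.biUnion fun i => ((range (n i)).filter (op i)).image (z i)) S =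
      ∑ i ∈ I, (ind S (φ i 0) - ind S (φ i (n i))) := by
  unfold net
  rw [sum_biUnion]
  · refine sum_congr rfl fun i hi => ?_
    have hin : Set.InjOn (z i) ((range (n i)).filter (op i) : Finset ℕ) := by
      intro s hs t ht hst
      rw [mem_coe, mem_filter, mem_range] at hs ht
      exact (hinj i hi i hi s hs.1 t ht.1 hst).2
    rw [sum_image hin, sum_filter]
    have h6 : ∀ t ∈ range (n i), (if op i t then ind S (tl (z i t)) - ind S (hd (z i t)) else 0) =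
        ind S (φ i t) - ind S (φ i (t + 1)) := by
      intro t ht
      have ht' := mem_range.1 ht
      by_cases h : op i t
      · rw [if_pos h, (h1 i hi t ht' h).1, (h1 i hi t ht' h).2]
      · rw [if_neg h, h2 i hi t ht' h]; ring
    rw [sum_congr rfl h6]
    exact Finset.sum_range_sub' (fun t => ind S (φ i t)) (n i)
  · intro i hi j hj hij
    rw [Function.onFun, disjoint_left]
    intro c hc hc'
    obtain ⟨s, hs, rfl⟩ := mem_image.1 hc
    obtain ⟨t, ht, h⟩ := mem_image.1 hc'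
    rw [mem_filter, mem_range] at hs ht
    exact hij (hinj j hj i hi t ht.1 s hs.1 h).1.symm

open Classical in
/-- A family of pieces with disjoint corners gives disjoint sets of labels with an arm; `out = true`:
all pieces go from the inside to the outside, `out = false`: from the outside to the inside. -/
lemma arms_of_fam {ι : Type*} [DecidableEq ι] {fr : ℤ × ℤ → ℤ × ℤ} {lb : ℤ × ℤ → ℤ × ℤ}
    (hlb : ∀ c, fr c + fr (pr c) = lb c ∧ IsUnit4 (fr (pr c) - fr c))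
    (hinj' : ∀ c c', lb c = lb c' → plab c = plab c')
    {I : Finset ι} {z : ι → ℕ → ℤ × ℤ} {n : ι → ℕ} {op : ι → ℕ → Prop}
    (h1 : ∀ i ∈ I, ∀ t < n i, op i t → fr (z i (t + 1)) = fr (pr (z i t)))
    (h2 : ∀ i ∈ I, ∀ t < n i, ¬ op i t → fr (z i (t + 1)) = fr (z i t))
    (hinj : ∀ i ∈ I, ∀ j ∈ I, ∀ s < n i, ∀ t < n j, z i s = z j t → i = j ∧ s = t)
    {x : ℤ × ℤ} {ρ M : ℤ} {ω : Finset (ℤ × ℤ)} (out : Bool)
    (hQ : ∀ i ∈ I, if out then Nr x ρ (fr (z i 0)) ∧ Fr x M (fr (z i (n i))) else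
      Fr x M (fr (z i 0)) ∧ Nr x ρ (fr (z i (n i))))
    (hω : ∀ i ∈ I, ∀ t < n i, op i t → lb (z i t) ∈ ω) :
    Arms I.card (Arm1 x ρ M) ω := by
  set D := I.biUnion fun i => ((range (n i)).filter (op i)).image (z i) with hD
  have hD1 : ∀ c ∈ D, lb c ∈ ω := by
    intro c hc
    obtain ⟨i, hi, hc⟩ := mem_biUnion.1 hc
    obtain ⟨t, ht, rfl⟩ := mem_image.1 hc
    rw [mem_filter, mem_range] at ht
    exact hω i hi t ht.1 ht.2
  -- tails and heads in the direction from the inside to the outside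
  obtain ⟨tl, hd, htl, hsym, hD2⟩ : ∃ tl hd : ℤ × ℤ → ℤ × ℤ,
      (∀ c, (tl c = fr c ∧ hd c = fr (pr c)) ∨ (tl c = fr (pr c) ∧ hd c = fr c)) ∧
      (∀ c, tl (pr c) = hd c ∧ hd (pr c) = tl c) ∧
      ∀ S : Set (ℤ × ℤ), {v | Nr x ρ v} ⊆ S → Disjoint S {v | Fr x M v} →
        (I.card : ℤ) ≤ net tl hd D S := by
    cases out with
    | true =>
      refine ⟨fr, fun c => fr (pr c), fun c => Or.inl ⟨rfl, rfl⟩, fun c => ⟨rfl, by
        simp only [pr_pr]⟩, fun S hS hSB => ?_⟩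
      rw [hD, fam_darts (φ := fun i t => fr (z i t)) (fun i hi t ht h => ⟨rfl, (h1 i hi t ht h).symm⟩)
        h2 hinj, card_eq_sum_ones]
      push_cast
      refine sum_le_sum fun i hi => ?_
      have := hQ i hi
      simp only [if_true] at this
      rw [ind_pos (hS this.1), ind_neg (fun h => Set.disjoint_left.1 hSB h this.2)]
      norm_num
    | false =>
      refine ⟨fun c => fr (pr c), fr, fun c => Or.inr ⟨rfl, rfl⟩, fun c => ⟨by
        simp only [pr_pr], rfl⟩, fun S hS hSB => ?_⟩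
      have e : net (fun c => fr (pr c)) fr D S = - net fr (fun c => fr (pr c)) D S := by
        unfold net
        rw [← sum_neg_distrib]
        exact sum_congr rfl fun c _ => by ring
      rw [e, hD, fam_darts (φ := fun i t => fr (z i t))
        (fun i hi t ht h => ⟨rfl, (h1 i hi t ht h).symm⟩) h2 hinj, card_eq_sum_ones,
        ← sum_neg_distrib]
      push_cast
      refine sum_le_sum fun i hi => ?_
      have := hQ i hi
      simp only [Bool.false_eq_true, if_false] at this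
      rw [ind_pos (hS this.2), ind_neg (fun h => Set.disjoint_left.1 hSB h this.1)]
      norm_num
  have hD3 : ∀ S : Set (ℤ × ℤ), {v : ℤ × ℤ | Nr x ρ v} ⊆ S → Disjoint S {v : ℤ × ℤ | Fr x M v} →
      (I.card : ℤ) ≤ net tl hd (D.filter fun c => pr c ∉ D) S := by
    intro S hS hSB
    rw [net_cancel tl hd pr pr_pr pr_ne (fun c _ _ => hsym c)]
    exact hD2 S hS hSB
  obtain ⟨P, hP1, hP2, hP3⟩ := flow_paths tl hd _ _ I.card _ hD3
  refine ⟨fun i => (P i).image lb, ?_, ?_, ?_⟩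
  · intro i
    rw [image_subset_iff]
    intro c hc
    exact hD1 c (mem_filter.1 (hP1 i hc)).1
  · intro i j hij
    rw [disjoint_left]
    intro e he he'
    obtain ⟨c, hc, rfl⟩ := mem_image.1 he
    obtain ⟨c', hc', h⟩ := mem_image.1 he'
    rcases eq_or_pr (hinj' _ _ h.symm) with h3 | h3
    · subst h3
      exact disjoint_left.1 (hP2 i j hij) hc hc'
    · have h4 := mem_filter.1 (hP1 i hc)
      have h5 := mem_filter.1 (hP1 j hc')
      rw [h3] at h5
      exact h4.2 h5.1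
  · intro i
    obtain ⟨u, hu, v, hv, h⟩ := hP3 i
    refine ⟨u, v, hu.1, hu.2, hv, ?_⟩
    refine Relation.ReflTransGen.mono ?_ _ _ h
    rintro y y' ⟨c, hc, rfl, rfl⟩
    rcases htl c with ⟨h5, h6⟩ | ⟨h5, h6⟩ <;> rw [h5, h6]
    · exact ⟨(hlb c).2, by rw [(hlb c).1]; exact mem_image_of_mem _ hc⟩
    · refine ⟨?_, by rw [add_comm, (hlb c).1]; exact mem_image_of_mem _ hc⟩
      have := (hlb c).2
      unfold IsUnit4 at this ⊢
      simp only [Prod.fst_sub, Prod.snd_sub, Prod.ext_iff] at this ⊢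
      omega

variable {ι : Type*} [DecidableEq ι]

/-- **pieces whose open labels all belong to `ω`** -/
theorem fam_open {L ω : Finset (ℤ × ℤ)} {I : Finset ι} {c : ι → ℤ × ℤ} {n : ι → ℕ} {x : ℤ × ℤ}
    {ρ M : ℤ} (out : Bool)
    (hQ : ∀ i ∈ I, if out then Nr x ρ (vx (c i)) ∧ Fr x M (vx ((pv L)^[n i] (c i))) else
      Fr x M (vx (c i)) ∧ Nr x ρ (vx ((pv L)^[n i] (c i))))
    (hω : ∀ i ∈ I, ∀ t < n i, plab ((pv L)^[t] (c i)) ∈ L → plab ((pv L)^[t] (c i)) ∈ ω)
    (hinj : ∀ i ∈ I, ∀ j ∈ I, ∀ s < n i, ∀ t < n j,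
      (pv L)^[s] (c i) = (pv L)^[t] (c j) → i = j ∧ s = t) :
    Arms I.card (Arm1 x ρ M) ω := by
  refine arms_of_fam (fr := vx) (lb := plab) (z := fun i t => (pv L)^[t] (c i))
    (op := fun i t => plab ((pv L)^[t] (c i)) ∈ L) vx_add_vx_pr (fun _ _ h => h) ?_ ?_ hinj out hQ hω
  · intro i _ t _ ht
    simp only [Function.iterate_succ_apply']
    exact vx_pv_open ht
  · intro i _ t _ ht
    simp only [Function.iterate_succ_apply']
    exact vx_pv_closed ht

/-- **pieces whose closed labels all belong to `E`** -/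
theorem fam_dual {L ω E : Finset (ℤ × ℤ)} {I : Finset ι} {c : ι → ℤ × ℤ} {n : ι → ℕ} {x : ℤ × ℤ}
    {ρ M : ℤ} (out : Bool) (hωL : ω ⊆ L)
    (hQ : ∀ i ∈ I, if out then Nr x ρ (fi (c i)) ∧ Fr x M (fi ((pv L)^[n i] (c i))) else
      Fr x M (fi (c i)) ∧ Nr x ρ (fi ((pv L)^[n i] (c i))))
    (hE : ∀ i ∈ I, ∀ t < n i, plab ((pv L)^[t] (c i)) ∉ L → plab ((pv L)^[t] (c i)) ∈ E)
    (hinj : ∀ i ∈ I, ∀ j ∈ I, ∀ s < n i, ∀ t < n j,
      (pv L)^[s] (c i) = (pv L)^[t] (c j) → i = j ∧ s = t) :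
    Arms I.card (Arm1 x ρ M) (du E ω) := by
  refine arms_of_fam (fr := fi) (lb := fun c => sh1 (plab c)) (z := fun i t => (pv L)^[t] (c i))
    (op := fun i t => plab ((pv L)^[t] (c i)) ∉ L) fi_add_fi_pr (fun _ _ h => sh1.injective h) ?_ ?_
    hinj out hQ ?_
  · intro i _ t _ ht
    simp only [Function.iterate_succ_apply']
    exact fi_pv_closed ht
  · intro i _ t _ ht
    simp only [Function.iterate_succ_apply']
    exact fi_pv_open (not_not.1 ht)
  · intro i hi t ht h5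
    unfold du
    exact mem_map_of_mem _ (mem_sdiff.2 ⟨hE i hi t ht h5, fun h => h5 (hωL h)⟩)

/-! ### The same for the orbits of `nx L` -/

lemma pv_iter_nx (w : Finset (ℤ × ℤ)) (c : ℤ × ℤ) {j i : ℕ} (h : i ≤ j) :
    (pv w)^[i] ((nx w)^[j] c) = (nx w)^[j - i] c := by
  induction i with
  | zero => rfl
  | succ i ih =>
    rw [Function.iterate_succ_apply', ih (by omega)]
    obtain ⟨k, hk⟩ : ∃ k, j - i = k + 1 := ⟨j - i - 1, by omega⟩
    rw [hk, Function.iterate_succ_apply', pv_nx]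
    congr 1
    omega

lemma plab_pv_iter_nx (w : Finset (ℤ × ℤ)) (c : ℤ × ℤ) {j i : ℕ} (h : i < j) :
    plab ((pv w)^[i] ((nx w)^[j] c)) = lab ((nx w)^[j - 1 - i] c) := by
  rw [pv_iter_nx w c h.le]
  obtain ⟨k, hk⟩ : ∃ k, j - i = k + 1 := ⟨j - i - 1, by omega⟩
  rw [hk, Function.iterate_succ_apply', plab_nx]
  congr 2
  omega

omit [DecidableEq ι] in
lemma hinj_nx {L : Finset (ℤ × ℤ)} {I : Finset ι} {c : ι → ℤ × ℤ} {n : ι → ℕ}
    (hinj : ∀ i ∈ I, ∀ j ∈ I, ∀ s < n i, ∀ t < n j,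
      (nx L)^[s] (c i) = (nx L)^[t] (c j) → i = j ∧ s = t) :
    ∀ i ∈ I, ∀ j ∈ I, ∀ s < n i, ∀ t < n j,
      (pv L)^[s] ((nx L)^[n i] (c i)) = (pv L)^[t] ((nx L)^[n j] (c j)) → i = j ∧ s = t := by
  intro i hi j hj s hs t ht h
  rw [pv_iter_nx _ _ hs.le, pv_iter_nx _ _ ht.le] at h
  obtain ⟨a, ha⟩ : ∃ a, n i - s = a + 1 := ⟨n i - s - 1, by omega⟩
  obtain ⟨b, hb⟩ : ∃ b, n j - t = b + 1 := ⟨n j - t - 1, by omega⟩
  rw [ha, hb, Function.iterate_succ_apply', Function.iterate_succ_apply'] at h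
  obtain ⟨h1, h2⟩ := hinj i hi j hj a (by omega) b (by omega) (nx_injective L h)
  subst h1
  exact ⟨rfl, by omega⟩

/-- **pieces of orbits of `nx L` whose open labels all belong to `ω`** -/
theorem fam_open_nx {L ω : Finset (ℤ × ℤ)} {I : Finset ι} {c : ι → ℤ × ℤ} {n : ι → ℕ} {x : ℤ × ℤ}
    {ρ M : ℤ} (out : Bool)
    (hQ : ∀ i ∈ I, if out then Nr x ρ (vx (c i)) ∧ Fr x M (vx ((nx L)^[n i] (c i))) else
      Fr x M (vx (c i)) ∧ Nr x ρ (vx ((nx L)^[n i] (c i))))
    (hω : ∀ i ∈ I, ∀ t < n i, lab ((nx L)^[t] (c i)) ∈ L → lab ((nx L)^[t] (c i)) ∈ ω)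
    (hinj : ∀ i ∈ I, ∀ j ∈ I, ∀ s < n i, ∀ t < n j,
      (nx L)^[s] (c i) = (nx L)^[t] (c j) → i = j ∧ s = t) :
    Arms I.card (Arm1 x ρ M) ω := by
  refine fam_open (L := L) (c := fun i => (nx L)^[n i] (c i)) (n := n) (!out) ?_ ?_ (hinj_nx hinj)
  · intro i hi
    have h := hQ i hi
    simp only [pv_iter_nx _ _ le_rfl, Nat.sub_self, Function.iterate_zero, id_eq]
    cases out with
    | true => simpa [and_comm] using h
    | false => simpa [and_comm] using h
  · intro i hi t ht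
    rw [plab_pv_iter_nx _ _ ht]
    exact hω i hi _ (by omega)

/-- **pieces of orbits of `nx L` whose closed labels all belong to `E`** -/
theorem fam_dual_nx {L ω E : Finset (ℤ × ℤ)} {I : Finset ι} {c : ι → ℤ × ℤ} {n : ι → ℕ}
    {x : ℤ × ℤ} {ρ M : ℤ} (out : Bool) (hωL : ω ⊆ L)
    (hQ : ∀ i ∈ I, if out then Nr x ρ (fi (c i)) ∧ Fr x M (fi ((nx L)^[n i] (c i))) else
      Fr x M (fi (c i)) ∧ Nr x ρ (fi ((nx L)^[n i] (c i))))
    (hE : ∀ i ∈ I, ∀ t < n i, lab ((nx L)^[t] (c i)) ∉ L → lab ((nx L)^[t] (c i)) ∈ E)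
    (hinj : ∀ i ∈ I, ∀ j ∈ I, ∀ s < n i, ∀ t < n j,
      (nx L)^[s] (c i) = (nx L)^[t] (c j) → i = j ∧ s = t) :
    Arms I.card (Arm1 x ρ M) (du E ω) := by
  refine fam_dual (L := L) (c := fun i => (nx L)^[n i] (c i)) (n := n) (!out) hωL ?_ ?_
    (hinj_nx hinj)
  · intro i hi
    have h := hQ i hi
    simp only [pv_iter_nx _ _ le_rfl, Nat.sub_self, Function.iterate_zero, id_eq]
    cases out with
    | true => simpa [and_comm] using h
    | false => simpa [and_comm] using h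
  · intro i hi t ht
    rw [plab_pv_iter_nx _ _ ht]
    exact hE i hi _ (by omega)

end Pool.Agent.H34.Q1
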