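import Mathlib
import Pool.Agent.H34.Q1.KapArms
import Pool.Agent.H65.G1.Mom

set_option autoImplicit false
open Finset

/-! # Number of strands leaving a window of a row: tails (chapter B4/B5 (M2), part K1)

`G` : set of labels (the labels below the row). `kapN L G Wd M` : the corners `c` of the finite set
`Wd`, entering `G` (`plab c ∉ G`), whose strand (orbit of `nx L`) stays in `G` until it has reached the
distance `M` from `c`. `kapP` : the same for `pv L`. `kapN_tail` etc.: if the corners of `Wd` are in a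
ball of radius `r`, `M ≥ 5 r + 16`, and the labels of `G` in the ball of radius `M` are random or all of
the same type (all closed or all open), then `P(n ≤ #kapN) ≤ (1-δ)^n`. -/

namespace Pool.Agent.H34.Q1

open Pool.Agent.H57.Flow Pool.Agent.H57.Q1
open Pool.Agent.H75.Perc Pool.Agent.H75.TwoArm Pool.Agent.H49.Perc Pool.Agent.H99.NC Pool.Agent.H65.G1

/-- sup distance at least `M` -/
def FarC (x : ℤ × ℤ) (M : ℤ) (c : ℤ × ℤ) : Prop := M ≤ |c.1 - x.1| ∨ M ≤ |c.2 - x.2|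

/-- the start of a strand piece in `G` leaving the ball of radius `M` around its starting corner;
`f` : step, `lb` : label met by the next step, `lb'` : label met by the last step -/
def Kst (f lb lb' : ℤ × ℤ → ℤ × ℤ) (G : Set (ℤ × ℤ)) (M : ℤ) (c : ℤ × ℤ) : Prop :=
  lb' c ∉ G ∧ ∃ n : ℕ, (∀ t < n, lb (f^[t] c) ∈ G) ∧ FarC c M (f^[n] c)

open Classical in
/-- starting corners of the strands (`nx`) from the window `Wd` -/
noncomputable def kapN (L : Finset (ℤ × ℤ)) (G : Set (ℤ × ℤ)) (Wd : Finset (ℤ × ℤ)) (M : ℤ) :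
    Finset (ℤ × ℤ) := Wd.filter (Kst (nx L) lab plab G M)

open Classical in
/-- starting corners of the strands (`pv`) from the window `Wd` -/
noncomputable def kapP (L : Finset (ℤ × ℤ)) (G : Set (ℤ × ℤ)) (Wd : Finset (ℤ × ℤ)) (M : ℤ) :
    Finset (ℤ × ℤ) := Wd.filter (Kst (pv L) plab lab G M)

/-- distinct starts give disjoint pieces -/
lemma Kst_inj {f lb lb' : ℤ × ℤ → ℤ × ℤ} (hf : Function.Injective f) (hl : ∀ c, lb' (f c) = lb c)
    {G : Set (ℤ × ℤ)} {I : Finset (ℤ × ℤ)} {n : ℤ × ℤ → ℕ} (h0 : ∀ c ∈ I, lb' c ∉ G)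
    (hn : ∀ c ∈ I, ∀ t < n c, lb (f^[t] c) ∈ G) :
    ∀ i ∈ I, ∀ j ∈ I, ∀ s < n i, ∀ t < n j, f^[s] i = f^[t] j → i = j ∧ s = t := by
  have key : ∀ i ∈ I, ∀ j ∈ I, ∀ s < n i, ∀ t < n j, s ≤ t → f^[s] i = f^[t] j → i = j ∧ s = t := by
    intro i hi j hj s hs t ht hst h
    obtain ⟨d, rfl⟩ := Nat.exists_eq_add_of_le hst
    rw [Function.iterate_add_apply] at h
    have h1 := hf.iterate s h
    rcases Nat.eq_zero_or_pos d with rfl | hd
    · exact ⟨h1, rfl⟩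
    · exfalso
      obtain ⟨e, rfl⟩ : ∃ e, d = e + 1 := ⟨d - 1, by omega⟩
      rw [Function.iterate_succ_apply'] at h1
      refine h0 i hi ?_
      rw [h1, hl]
      exact hn j hj e (by omega)
  intro i hi j hj s hs t ht h
  rcases le_total s t with hst | hst
  · exact key i hi j hj s hs t ht hst h
  · obtain ⟨h1, h2⟩ := key j hj i hi t ht s hs hst h.symm
    exact ⟨h1.symm, h2.symm⟩

/-- truncated pieces -/
lemma Kst_trunc {f lb lb' : ℤ × ℤ → ℤ × ℤ} {G : Set (ℤ × ℤ)} {M : ℤ} {c : ℤ × ℤ}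
    (h : Kst f lb lb' G M c) {x : ℤ × ℤ} {r M' : ℤ} (hx : |c.1 - x.1| ≤ r ∧ |c.2 - x.2| ≤ r)
    (hM : M' + r ≤ M) : ∃ n : ℕ, (∀ t < n, lb (f^[t] c) ∈ G) ∧ FarC x M' (f^[n] c) ∧
      ∀ t < n, ¬ FarC x M' (f^[t] c) := by
  classical
  obtain ⟨-, N, h1, h2⟩ := h
  have hex : ∃ n, FarC x M' (f^[n] c) := by
    refine ⟨N, ?_⟩
    unfold FarC at h2 ⊢
    rw [le_abs, le_abs] at h2 ⊢
    have h3 := abs_le.1 hx.1
    have h4 := abs_le.1 hx.2
    omega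
  refine ⟨Nat.find hex, fun t ht => h1 t (lt_of_lt_of_le ht ?_), Nat.find_spec hex,
    fun t ht => Nat.find_min hex ht⟩
  by_contra hcon
  push Not at hcon
  refine Nat.find_min hex hcon ?_
  unfold FarC at h2 ⊢
  rw [le_abs, le_abs] at h2 ⊢
  have h3 := abs_le.1 hx.1
  have h4 := abs_le.1 hx.2
  omega

lemma lab_near (c : ℤ × ℤ) : |(lab c).1 - c.1| ≤ 1 ∧ |(lab c).2 - c.2| ≤ 1 := by
  unfold lab
  split_ifs <;> simp

lemma plab_near (c : ℤ × ℤ) : |(plab c).1 - c.1| ≤ 1 ∧ |(plab c).2 - c.2| ≤ 1 := by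
  unfold plab
  split_ifs <;> simp

/-- the labels of `G` near `x` are of one type -/
def OneType (E W : Finset (ℤ × ℤ)) (G : Set (ℤ × ℤ)) (x : ℤ × ℤ) (M : ℤ) : Prop :=
  (∀ e ∈ G, |e.1 - x.1| ≤ M → |e.2 - x.2| ≤ M → e ∉ W) ∨
  (∀ e ∈ G, |e.1 - x.1| ≤ M → |e.2 - x.2| ≤ M → e ∈ E ∨ e ∈ W)

/-- the arms of a window -/
lemma kap_arms {f lb lb' : ℤ × ℤ → ℤ × ℤ} (hf : Function.Injective f)
    (hl : ∀ c, lb' (f c) = lb c) (hlb : ∀ c, |(lb c).1 - c.1| ≤ 1 ∧ |(lb c).2 - c.2| ≤ 1)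
    {E W ω : Finset (ℤ × ℤ)} {G : Set (ℤ × ℤ)}
    (hopen : ∀ {I : Finset (ℤ × ℤ)} {n : ℤ × ℤ → ℕ} {x : ℤ × ℤ} {ρ M : ℤ},
      (∀ i ∈ I, Nr x ρ (vx i) ∧ Fr x M (vx (f^[n i] i))) →
      (∀ i ∈ I, ∀ t < n i, lb (f^[t] i) ∈ ω ∪ W → lb (f^[t] i) ∈ ω) →
      (∀ i ∈ I, ∀ j ∈ I, ∀ s < n i, ∀ t < n j, f^[s] i = f^[t] j → i = j ∧ s = t) →
      Arms I.card (Arm1 x ρ M) ω)
    (hdual : ∀ {I : Finset (ℤ × ℤ)} {n : ℤ × ℤ → ℕ} {x : ℤ × ℤ} {ρ M : ℤ},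
      (∀ i ∈ I, Nr x ρ (fi i) ∧ Fr x M (fi (f^[n i] i))) →
      (∀ i ∈ I, ∀ t < n i, lb (f^[t] i) ∉ ω ∪ W → lb (f^[t] i) ∈ E) →
      (∀ i ∈ I, ∀ j ∈ I, ∀ s < n i, ∀ t < n j, f^[s] i = f^[t] j → i = j ∧ s = t) →
      Arms I.card (Arm1 x ρ M) (du E ω))
    {x : ℤ × ℤ} {r M : ℤ} (hr : 0 ≤ r) (hM : 5 * r + 16 ≤ M) (hT : OneType E W G x M)
    {S : Finset (ℤ × ℤ)} (hSx : ∀ c ∈ S, |c.1 - x.1| ≤ r ∧ |c.2 - x.2| ≤ r)
    (hS : ∀ c ∈ S, Kst f lb lb' G M c) :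
    Arms S.card (Arm1 (x.1 / 2, x.2 / 2) (r / 2 + 1) (4 * (r / 2 + 1))) ω ∨
    Arms S.card (Arm1 (x.1 / 2, x.2 / 2) (r / 2 + 1) (4 * (r / 2 + 1))) (du E ω) := by
  classical
  have hex : ∀ c, ∃ n : ℕ, c ∈ S → (∀ t < n, lb (f^[t] c) ∈ G) ∧ FarC x (4 * r + 14) (f^[n] c) ∧
      ∀ t < n, ¬ FarC x (4 * r + 14) (f^[t] c) := by
    intro c
    by_cases hc : c ∈ S
    · obtain ⟨n, hn⟩ := Kst_trunc (hS c hc) (hSx c hc) (M' := 4 * r + 14) (by omega)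
      exact ⟨n, fun _ => hn⟩
    · exact ⟨0, fun h => absurd h hc⟩
  choose n hn using hex
  have hinj := Kst_inj hf hl (I := S) (n := n) (fun c hc => (hS c hc).1)
    (fun c hc => (hn c hc).1)
  have hnear : ∀ c ∈ S, ∀ t < n c, lb (f^[t] c) ∈ G ∧ |(lb (f^[t] c)).1 - x.1| ≤ M ∧
      |(lb (f^[t] c)).2 - x.2| ≤ M := by
    intro c hc t ht
    refine ⟨(hn c hc).1 t ht, ?_⟩
    have h1 := (hn c hc).2.2 t ht
    unfold FarC at h1
    push Not at h1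
    have h2 := hlb (f^[t] c)
    have h3 := abs_lt.1 h1.1
    have h4 := abs_lt.1 h1.2
    have h5 := abs_le.1 h2.1
    have h6 := abs_le.1 h2.2
    constructor <;> rw [abs_le] <;> constructor <;> omega
  rcases hT with hT | hT
  · left
    refine hopen (n := n) ?_ ?_ hinj
    · intro i hi
      have h1 := hSx i hi
      have h2 := (hn i hi).2.1
      unfold FarC at h2
      unfold Nr Fr vx
      rw [abs_le, abs_le] at h1
      rw [le_abs, le_abs] at h2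
      simp only [abs_le, le_abs]
      constructor
      · omega
      · omega
    · intro i hi t ht h
      obtain ⟨h1, h2, h3⟩ := hnear i hi t ht
      rcases mem_union.1 h with h4 | h4
      · exact h4
      · exact absurd h4 (hT _ h1 h2 h3)
  · right
    refine hdual (n := n) ?_ ?_ hinj
    · intro i hi
      have h1 := hSx i hi
      have h2 := (hn i hi).2.1
      unfold FarC at h2
      unfold Nr Fr fi
      rw [abs_le, abs_le] at h1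
      rw [le_abs, le_abs] at h2
      simp only [abs_le, le_abs]
      constructor
      · omega
      · omega
    · intro i hi t ht h
      obtain ⟨h1, h2, h3⟩ := hnear i hi t ht
      rcases hT _ h1 h2 h3 with h4 | h4
      · exact h4
      · exact absurd (mem_union_right _ h4) h

/-! ### The two kinds of strands -/

/-- what is used of the step map -/
structure Stp (F : Finset (ℤ × ℤ) → ℤ × ℤ → ℤ × ℤ) (lb lb' : ℤ × ℤ → ℤ × ℤ) : Prop where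
  inj : ∀ L, Function.Injective (F L)
  hl : ∀ L c, lb' (F L c) = lb c
  hlb : ∀ c, |(lb c).1 - c.1| ≤ 1 ∧ |(lb c).2 - c.2| ≤ 1
  hopen : ∀ (W ω : Finset (ℤ × ℤ)) {I : Finset (ℤ × ℤ)} {n : ℤ × ℤ → ℕ} {x : ℤ × ℤ} {ρ M : ℤ},
      (∀ i ∈ I, Nr x ρ (vx i) ∧ Fr x M (vx ((F (ω ∪ W))^[n i] i))) →
      (∀ i ∈ I, ∀ t < n i, lb ((F (ω ∪ W))^[t] i) ∈ ω ∪ W → lb ((F (ω ∪ W))^[t] i) ∈ ω) →
      (∀ i ∈ I, ∀ j ∈ I, ∀ s < n i, ∀ t < n j, (F (ω ∪ W))^[s] i = (F (ω ∪ W))^[t] j →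
        i = j ∧ s = t) → Arms I.card (Arm1 x ρ M) ω
  hdual : ∀ (E W ω : Finset (ℤ × ℤ)) {I : Finset (ℤ × ℤ)} {n : ℤ × ℤ → ℕ} {x : ℤ × ℤ} {ρ M : ℤ},
      (∀ i ∈ I, Nr x ρ (fi i) ∧ Fr x M (fi ((F (ω ∪ W))^[n i] i))) →
      (∀ i ∈ I, ∀ t < n i, lb ((F (ω ∪ W))^[t] i) ∉ ω ∪ W → lb ((F (ω ∪ W))^[t] i) ∈ E) →
      (∀ i ∈ I, ∀ j ∈ I, ∀ s < n i, ∀ t < n j, (F (ω ∪ W))^[s] i = (F (ω ∪ W))^[t] j →
        i = j ∧ s = t) → Arms I.card (Arm1 x ρ M) (du E ω)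

lemma pv_injective (w : Finset (ℤ × ℤ)) : Function.Injective (pv w) :=
  Function.LeftInverse.injective (nx_pv w)

theorem stp_nx : Stp nx lab plab where
  inj := nx_injective
  hl := plab_nx
  hlb := lab_near
  hopen := fun W ω {I n x ρ M} h1 h2 h3 =>
    fam_open_nx (c := fun i => i) true (by simpa using h1) h2 h3
  hdual := fun E W ω {I n x ρ M} h1 h2 h3 =>
    fam_dual_nx (c := fun i => i) true (subset_union_left (s₂ := W)) (by simpa using h1) h2 h3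

theorem stp_pv : Stp pv plab lab where
  inj := pv_injective
  hl := lab_pv
  hlb := plab_near
  hopen := fun W ω {I n x ρ M} h1 h2 h3 =>
    fam_open (c := fun i => i) true (by simpa using h1) h2 h3
  hdual := fun E W ω {I n x ρ M} h1 h2 h3 =>
    fam_dual (c := fun i => i) true (subset_union_left (s₂ := W)) (by simpa using h1) h2 h3

open Classical in
/-- starting corners of the strands from the window `Wd` -/
noncomputable def kapG (f lb lb' : ℤ × ℤ → ℤ × ℤ) (G : Set (ℤ × ℤ)) (Wd : Finset (ℤ × ℤ)) (M : ℤ) :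
    Finset (ℤ × ℤ) := Wd.filter (Kst f lb lb' G M)

lemma kapN_eq (L : Finset (ℤ × ℤ)) (G : Set (ℤ × ℤ)) (Wd : Finset (ℤ × ℤ)) (M : ℤ) :
    kapN L G Wd M = kapG (nx L) lab plab G Wd M := rfl

lemma kapP_eq (L : Finset (ℤ × ℤ)) (G : Set (ℤ × ℤ)) (Wd : Finset (ℤ × ℤ)) (M : ℤ) :
    kapP L G Wd M = kapG (pv L) plab lab G Wd M := rfl

lemma Arms_le {α : Type*} {m n : ℕ} (h : m ≤ n) {A : Finset α → Prop} {ω : Finset α}
    (hA : Arms n A ω) : Arms m A ω := by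
  obtain ⟨S, h1, h2, h3⟩ := hA
  exact ⟨fun i => S (Fin.castLE h i), fun i => h1 _, fun i j hij =>
    h2 _ _ fun he => hij (Fin.castLE_injective h he), fun i => h3 _⟩

/-- **tail of the number of strands from a small window** -/
theorem kap_tail : ∃ δ : ℝ, 0 < δ ∧ δ < 1 ∧
    ∀ (F : Finset (ℤ × ℤ) → ℤ × ℤ → ℤ × ℤ) (lb lb' : ℤ × ℤ → ℤ × ℤ), Stp F lb lb' →
    ∀ (E W : Finset (ℤ × ℤ)) (G : Set (ℤ × ℤ)), (∀ e ∈ E, (e.1 + e.2) % 2 = 1) →
    ∀ (x : ℤ × ℤ) (r M : ℤ), 0 ≤ r → 5 * r + 16 ≤ M → OneType E W G x M →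
    ∀ Wd : Finset (ℤ × ℤ), (∀ c ∈ Wd, |c.1 - x.1| ≤ r ∧ |c.2 - x.2| ≤ r) → ∀ n : ℕ,
    PrP (fun _ => 1 / 2) E (fun ω => n ≤ (kapG (F (ω ∪ W)) lb lb' G Wd M).card) ≤
      2 * (1 - δ) ^ n := by
  classical
  obtain ⟨δ, h0, h1, h⟩ := k_arms_dual
  refine ⟨δ, h0, h1, ?_⟩
  intro F lb lb' hF E W G hE x r M hr hM hT Wd hWd n
  have hq : Pb (fun _ : ℤ × ℤ => (1 : ℝ) / 2) := fun _ => by norm_num
  have h2 := h E hE (x.1 / 2, x.2 / 2) (r / 2 + 1) (by omega) 1 n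
  rw [pow_one, one_mul] at h2
  have h3 : PrP (fun _ => 1 / 2) E (fun ω => n ≤ (kapG (F (ω ∪ W)) lb lb' G Wd M).card) ≤
      PrP (fun _ => 1 / 2) E (fun ω =>
        Arms n (Arm1 (x.1 / 2, x.2 / 2) (r / 2 + 1) (4 * (r / 2 + 1))) ω ∨
        Arms n (Arm1 (x.1 / 2, x.2 / 2) (r / 2 + 1) (4 * (r / 2 + 1))) (du E ω)) := by
    refine PrP_mono hq fun ω _ hn => ?_
    have h4 := kap_arms (f := F (ω ∪ W)) (hF.inj _) (hF.hl _) hF.hlb (hF.hopen W ω)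
      (hF.hdual E W ω) hr hM hT (S := kapG (F (ω ∪ W)) lb lb' G Wd M)
      (fun c hc => hWd c (mem_filter.1 hc).1) (fun c hc => (mem_filter.1 hc).2)
    exact h4.imp (Arms_le hn) (Arms_le hn)
  refine h3.trans ((PrP_or_le hq E _ _).trans ?_)
  rw [PrP_half, PrP_half]
  linarith [h2.1, h2.2]

/-! ### Moments -/

lemma Kst_mono {f lb lb' : ℤ × ℤ → ℤ × ℤ} {G : Set (ℤ × ℤ)} {M M' : ℤ} (h : M' ≤ M) {c : ℤ × ℤ}
    (hc : Kst f lb lb' G M c) : Kst f lb lb' G M' c := by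
  obtain ⟨h1, n, h2, h3⟩ := hc
  exact ⟨h1, n, h2, h3.imp h.trans h.trans⟩

lemma OneType_mono {E W : Finset (ℤ × ℤ)} {G : Set (ℤ × ℤ)} {x y : ℤ × ℤ} {M M' r : ℤ}
    (h : OneType E W G x M) (hM : M' + r ≤ M) (hy : |x.1 - y.1| ≤ r ∧ |x.2 - y.2| ≤ r) :
    OneType E W G y M' := by
  have h1 := abs_le.1 hy.1
  have h2 := abs_le.1 hy.2
  rcases h with h | h
  · left
    intro e he h3 h4
    have h3' := abs_le.1 h3
    have h4' := abs_le.1 h4
    exact h e he (abs_le.2 ⟨by omega, by omega⟩) (abs_le.2 ⟨by omega, by omega⟩)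
  · right
    intro e he h3 h4
    have h3' := abs_le.1 h3
    have h4' := abs_le.1 h4
    exact h e he (abs_le.2 ⟨by omega, by omega⟩) (abs_le.2 ⟨by omega, by omega⟩)

/-- moments of the number of strands from a small window -/
theorem kap_moment_small (p : ℕ) : ∃ C : ℝ, 1 ≤ C ∧
    ∀ (F : Finset (ℤ × ℤ) → ℤ × ℤ → ℤ × ℤ) (lb lb' : ℤ × ℤ → ℤ × ℤ), Stp F lb lb' →
    ∀ (E W : Finset (ℤ × ℤ)) (G : Set (ℤ × ℤ)), (∀ e ∈ E, (e.1 + e.2) % 2 = 1) →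
    ∀ (x : ℤ × ℤ) (r M : ℤ), 0 ≤ r → 5 * r + 16 ≤ M → OneType E W G x M →
    ∀ Wd : Finset (ℤ × ℤ), (∀ c ∈ Wd, |c.1 - x.1| ≤ r ∧ |c.2 - x.2| ≤ r) →
    Ex (fun _ => 1 / 2) E (fun ω => ((kapG (F (ω ∪ W)) lb lb' G Wd M).card : ℝ) ^ (p + 1)) ≤ C := by
  obtain ⟨δ, h0, h1, h⟩ := kap_tail
  refine ⟨max 1 (2 * Mc (p + 1) (1 - δ)), le_max_left _ _, ?_⟩
  intro F lb lb' hF E W G hE x r M hr hM hT Wd hWd
  refine le_trans ?_ (le_max_right _ _)
  exact moment_of_tail (fun _ => by norm_num) E _ (by linarith) (by linarith)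
    (fun n _ => h F lb lb' hF E W G hE x r M hr hM hT Wd hWd n) (by omega)

/-- the number of cells -/
lemma card_cells {Wd : Finset (ℤ × ℤ)} {z : ℤ × ℤ} {A : ℕ} {M s : ℤ} (hs : 1 ≤ s)
    (hMs : M ≤ 32 * s)
    (hWd : ∀ c ∈ Wd, |c.1 - z.1| ≤ A * M ∧ |c.2 - z.2| ≤ A * M) :
    (Wd.image fun c => (c.1 / s, c.2 / s)).card ≤ (64 * A + 2) ^ 2 := by
  have hsub : (Wd.image fun c => (c.1 / s, c.2 / s)) ⊆
      (Icc ((z.1 - A * M) / s) ((z.1 + A * M) / s)) ×ˢ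
        (Icc ((z.2 - A * M) / s) ((z.2 + A * M) / s)) := by
    intro k hk
    obtain ⟨c, hc, rfl⟩ := mem_image.1 hk
    obtain ⟨h1, h2⟩ := hWd c hc
    have h1' := abs_le.1 h1
    have h2' := abs_le.1 h2
    rw [mem_product, mem_Icc, mem_Icc]
    refine ⟨⟨Int.ediv_le_ediv (by omega) (by omega), Int.ediv_le_ediv (by omega) (by omega)⟩,
      ⟨Int.ediv_le_ediv (by omega) (by omega), Int.ediv_le_ediv (by omega) (by omega)⟩⟩
  have hlen : ∀ w : ℤ, (Icc ((w - A * M) / s) ((w + A * M) / s)).card ≤ 64 * A + 2 := by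
    intro w
    rw [Int.card_Icc]
    have h1 : (w + A * M) / s ≤ (w - A * M) / s + (64 * A + 1) := by
      have hA : (A : ℤ) * M ≤ A * (32 * s) := mul_le_mul_of_nonneg_left hMs (by positivity)
      have h2 : (w + A * M) / s ≤ (w - A * M + (64 * A) * s) / s :=
        Int.ediv_le_ediv (by omega) (by nlinarith)
      rw [Int.add_mul_ediv_right _ _ (by omega)] at h2
      omega
    omega
  calc _ ≤ _ := card_le_card hsub
    _ ≤ (64 * A + 2) * (64 * A + 2) := by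
        rw [card_product]
        exact Nat.mul_le_mul (hlen _) (hlen _)
    _ = _ := by ring

/-- **moments of the number of strands from a window of size `A M` reaching the distance `M`** -/
theorem kap_moment (p A : ℕ) : ∃ C : ℝ, 1 ≤ C ∧
    ∀ (F : Finset (ℤ × ℤ) → ℤ × ℤ → ℤ × ℤ) (lb lb' : ℤ × ℤ → ℤ × ℤ), Stp F lb lb' →
    ∀ (E W : Finset (ℤ × ℤ)) (G : Set (ℤ × ℤ)), (∀ e ∈ E, (e.1 + e.2) % 2 = 1) →
    ∀ (z : ℤ × ℤ) (M : ℤ), 1 ≤ M →
    ∀ Wd : Finset (ℤ × ℤ), (∀ c ∈ Wd, |c.1 - z.1| ≤ A * M ∧ |c.2 - z.2| ≤ A * M) →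
    (∀ c ∈ Wd, OneType E W G c M) →
    Ex (fun _ => 1 / 2) E (fun ω => ((kapG (F (ω ∪ W)) lb lb' G Wd M).card : ℝ) ^ (p + 1)) ≤ C := by
  classical
  obtain ⟨C, hC, h⟩ := kap_moment_small p
  refine ⟨(((64 * A + 2) ^ 2 : ℕ) : ℝ) ^ (p + 1) * C, ?_, ?_⟩
  · have : (1 : ℝ) ≤ (((64 * A + 2) ^ 2 : ℕ) : ℝ) := by
      exact_mod_cast Nat.one_le_iff_ne_zero.2 (by positivity)
    nlinarith [one_le_pow₀ this (n := p + 1)]
  intro F lb lb' hF E W G hE z M hM Wd hWd hT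
  have hq : Pb (fun _ : ℤ × ℤ => (1 : ℝ) / 2) := fun _ => by norm_num
  obtain ⟨r, s, M', hs, hMs, hcell⟩ : ∃ r s M' : ℤ, 1 ≤ s ∧ M ≤ 32 * s ∧
      (M' ≤ M ∧ s = 2 * r + 1 ∧ 0 ≤ r ∧ (r = 0 ∨ (5 * r + 16 ≤ M' ∧ M' + r ≤ M))) := by
    by_cases h32 : M < 32
    · exact ⟨0, 1, M, le_rfl, by omega, le_rfl, by norm_num, le_rfl, Or.inl rfl⟩
    · exact ⟨M / 12, 2 * (M / 12) + 1, 5 * (M / 12) + 16, by omega, by omega, by omega, rfl,
        by omega, Or.inr ⟨le_rfl, by omega⟩⟩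
  obtain ⟨hM', hs', hr, hcase⟩ := hcell
  set T := Wd.image fun c => (c.1 / s, c.2 / s) with hTdef
  set K : ℤ × ℤ → Finset (ℤ × ℤ) → ℝ := fun i ω =>
    ((kapG (F (ω ∪ W)) lb lb' G (Wd.filter fun c => (c.1 / s, c.2 / s) = i) M').card : ℝ) with hK
  have hle : ∀ ω ⊆ E, ((kapG (F (ω ∪ W)) lb lb' G Wd M).card : ℝ) ^ (p + 1) ≤
      (∑ i ∈ T, K i ω) ^ (p + 1) := by
    intro ω _
    refine pow_le_pow_left₀ (by positivity) ?_ _
    rw [hK]
    simp only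
    rw [← Nat.cast_sum]
    norm_cast
    refine le_trans ?_ (card_biUnion_le (s := T) (t := fun i =>
      kapG (F (ω ∪ W)) lb lb' G (Wd.filter fun c => (c.1 / s, c.2 / s) = i) M'))
    refine card_le_card fun c hc => ?_
    obtain ⟨h1, h2⟩ := mem_filter.1 hc
    refine mem_biUnion.2 ⟨(c.1 / s, c.2 / s), mem_image_of_mem _ h1, ?_⟩
    exact mem_filter.2 ⟨mem_filter.2 ⟨h1, rfl⟩, Kst_mono hM' h2⟩
  refine (Ex_mono hq hle).trans ?_
  refine (moment_sum hq E T K (fun i _ ω _ => Nat.cast_nonneg _) (M := C) ?_).trans ?_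
  · intro i hi
    obtain ⟨c0, hc0, hci⟩ := mem_image.1 hi
    have hin : ∀ c ∈ Wd.filter fun c => (c.1 / s, c.2 / s) = i,
        |c.1 - (s * i.1 + r)| ≤ r ∧ |c.2 - (s * i.2 + r)| ≤ r := by
      intro c hc
      have h1 := (mem_filter.1 hc).2
      rw [Prod.ext_iff] at h1
      simp only at h1
      have h3 := Int.emod_add_mul_ediv c.1 s
      have h4 := Int.emod_add_mul_ediv c.2 s
      have h5 := Int.emod_nonneg c.1 (show s ≠ 0 by omega)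
      have h6 := Int.emod_nonneg c.2 (show s ≠ 0 by omega)
      have h7 := Int.emod_lt_of_pos c.1 (show 0 < s by omega)
      have h8 := Int.emod_lt_of_pos c.2 (show 0 < s by omega)
      rw [h1.1] at h3
      rw [h1.2] at h4
      rw [abs_le, abs_le]
      omega
    rcases hcase with h00 | hcase
    · -- one corner per cell
      have : ∀ ω ⊆ E, K i ω ^ (p + 1) ≤ 1 := by
        intro ω _
        refine pow_le_one₀ (Nat.cast_nonneg _) ?_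
        have h2 : (kapG (F (ω ∪ W)) lb lb' G (Wd.filter fun c => (c.1 / s, c.2 / s) = i) M').card
            ≤ 1 := by
          refine (card_le_card (filter_subset _ _)).trans (card_le_one.2 fun a ha b hb => ?_)
          have ha' := hin a ha
          have hb' := hin b hb
          rw [h00] at ha' hb'
          rw [abs_le, abs_le] at ha' hb'
          exact Prod.ext (by omega) (by omega)
        simp only [hK]
        exact_mod_cast h2
      refine (Ex_mono hq this).trans ?_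
      rw [Ex_const]
      exact hC
    · refine h F lb lb' hF E W G hE (s * i.1 + r, s * i.2 + r) r M' hr hcase.1 ?_ _ hin
      exact OneType_mono (hT c0 hc0) hcase.2 (hin c0 (mem_filter.2 ⟨hc0, hci⟩))
  · refine mul_le_mul_of_nonneg_right ?_ (by linarith)
    refine pow_le_pow_left₀ (by positivity) ?_ _
    exact_mod_cast card_cells hs hMs hWd

end Pool.Agent.H34.Q1
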