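import Mathlib
import Pool.Agent.H34.Q1.Kap

set_option autoImplicit false
open Finset

/-! # Number of exits of a row: Whitney cover (part K2)

`Row` : finite set of corners. The window `win Row k j` consists of the corners `c` of `Row` with
`c.1 / 2^k = j`. `KK` : the maximum over the admissible windows of the number of strands which start in
the window and reach the distance `2^k` in `G`. `exits_le` : if every corner of `X ⊆ Row` starts a strand
in `G` which reaches the distance `min(R0, dist(c.1, Sp))`, then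
`#X ≤ (9 #Sp log₂ R0 + 4 len / R0 + 2) KK + 3 m #Sp`. `KK_moment` : the moments of `KK`. -/

namespace Pool.Agent.H34.Q1

open Pool.Agent.H57.Flow Pool.Agent.H57.Q1
open Pool.Agent.H75.Perc Pool.Agent.H75.TwoArm Pool.Agent.H49.Perc Pool.Agent.H99.NC
open Pool.Agent.H65.G1

/-- dyadic window -/
noncomputable def win (Row : Finset (ℤ × ℤ)) (k : ℕ) (j : ℤ) : Finset (ℤ × ℤ) :=
  Row.filter fun c => c.1 / 2 ^ k = j

open Classical in
/-- the admissible windows of size at most `2^(Lm-1)` -/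
noncomputable def Win (E W : Finset (ℤ × ℤ)) (G : Set (ℤ × ℤ)) (Row : Finset (ℤ × ℤ)) (Lm : ℕ) :
    Finset (ℕ × ℤ) :=
  ((range Lm).biUnion fun k => Row.image fun c => (k, c.1 / 2 ^ k)).filter
    fun w => ∀ c ∈ win Row w.1 w.2, OneType E W G c (2 ^ w.1)

/-- the maximal number of strands of an admissible window -/
noncomputable def KK (f lb lb' : ℤ × ℤ → ℤ × ℤ) (E W : Finset (ℤ × ℤ)) (G : Set (ℤ × ℤ))
    (Row : Finset (ℤ × ℤ)) (Lm : ℕ) : ℕ :=
  (Win E W G Row Lm).sup fun w => (kapG f lb lb' G (win Row w.1 w.2) (2 ^ w.1)).card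

lemma card_Win_le (E W : Finset (ℤ × ℤ)) (G : Set (ℤ × ℤ)) (Row : Finset (ℤ × ℤ)) (Lm : ℕ) :
    (Win E W G Row Lm).card ≤ Lm * Row.card := by
  classical
  unfold Win
  refine (card_filter_le _ _).trans (card_biUnion_le.trans ?_)
  refine (sum_le_card_nsmul _ _ Row.card fun k _ => card_image_le).trans ?_
  rw [card_range, smul_eq_mul]

/-- the distance from the special columns is at least `M`, `M ≤ R0` -/
def Dst (Sp : Finset ℤ) (R0 : ℕ) (c : ℤ × ℤ) (M : ℤ) : Prop := M ≤ R0 ∧ ∀ s ∈ Sp, M ≤ |c.1 - s|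

/-- windows around the special columns -/
noncomputable def winS (Sp : Finset ℤ) (R0 : ℕ) : Finset (ℕ × ℤ) :=
  (range (Nat.log 2 R0)).biUnion fun k => Sp.biUnion fun s =>
    (Icc (s / 2 ^ k - 4) (s / 2 ^ k + 4)).image fun j => (k, j)

/-- windows of the largest size -/
noncomputable def winT (a : ℤ) (len R0 : ℕ) : Finset (ℕ × ℤ) :=
  (Icc (a / 2 ^ (Nat.log 2 R0 - 1)) ((a + len) / 2 ^ (Nat.log 2 R0 - 1))).image
    fun j => (Nat.log 2 R0 - 1, j)

lemma card_winS (Sp : Finset ℤ) (R0 : ℕ) : (winS Sp R0).card ≤ 9 * Sp.card * Nat.log 2 R0 := by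
  classical
  unfold winS
  have h1 : ∀ (k : ℕ) (s : ℤ), ((Icc (s / 2 ^ k - 4) (s / 2 ^ k + 4)).image
      fun j => ((k, j) : ℕ × ℤ)).card ≤ 9 := by
    intro k s
    refine card_image_le.trans ?_
    rw [Int.card_Icc]
    omega
  have h2 : ∀ k ∈ range (Nat.log 2 R0), (Sp.biUnion fun s =>
      (Icc (s / 2 ^ k - 4) (s / 2 ^ k + 4)).image fun j => ((k, j) : ℕ × ℤ)).card ≤
      9 * Sp.card := by
    intro k _
    refine card_biUnion_le.trans ?_
    refine (sum_le_card_nsmul _ _ 9 fun s _ => h1 k s).trans ?_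
    rw [smul_eq_mul, mul_comm]
  refine card_biUnion_le.trans ?_
  refine (sum_le_card_nsmul _ _ _ h2).trans ?_
  rw [card_range, smul_eq_mul, mul_comm]

lemma card_winT (a : ℤ) (len R0 : ℕ) (hR0 : 2 ≤ R0) : (winT a len R0).card ≤ 4 * len / R0 + 2 := by
  classical
  unfold winT
  refine card_image_le.trans ?_
  rw [Int.card_Icc]
  obtain ⟨k, hk⟩ : ∃ k, Nat.log 2 R0 = k + 1 :=
    ⟨Nat.log 2 R0 - 1, by have := Nat.log_pos (b := 2) (by norm_num) hR0; omega⟩
  rw [hk, Nat.add_sub_cancel]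
  have h1 : R0 < 2 ^ (k + 2) := by
    have := Nat.lt_pow_succ_log_self (b := 2) (by norm_num) R0
    rwa [hk] at this
  have h2 : (0 : ℤ) < 2 ^ k := by positivity
  have h3 : (a + len) / 2 ^ k ≤ a / 2 ^ k + len / 2 ^ k + 1 := by
    have e1 := Int.emod_add_mul_ediv a (2 ^ k)
    have e2 := Int.emod_add_mul_ediv (len : ℤ) (2 ^ k)
    have e3 := Int.emod_lt_of_pos a h2
    have e4 := Int.emod_lt_of_pos (len : ℤ) h2
    have e5 : (a + len) < (a / 2 ^ k + len / 2 ^ k + 1 + 1) * 2 ^ k := by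
      nlinarith
    have := Int.ediv_lt_of_lt_mul h2 e5
    omega
  have h4 : (len : ℤ) / 2 ^ k ≤ ((4 * len / R0 : ℕ) : ℤ) := by
    have e1 : len / 2 ^ k ≤ 4 * len / R0 := by
      rw [Nat.le_div_iff_mul_le (by omega)]
      have e2 := Nat.div_mul_le_self len (2 ^ k)
      have e3 : R0 ≤ 4 * 2 ^ k := by rw [pow_add] at h1; omega
      calc len / 2 ^ k * R0 ≤ len / 2 ^ k * (4 * 2 ^ k) := Nat.mul_le_mul_left _ e3
        _ = 4 * (len / 2 ^ k * 2 ^ k) := by ring
        _ ≤ 4 * len := Nat.mul_le_mul_left _ e2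
    have e4 : (len : ℤ) / 2 ^ k = ((len / 2 ^ k : ℕ) : ℤ) := by push_cast; rfl
    rw [e4]
    exact_mod_cast e1
  obtain ⟨D, hD⟩ : ∃ D, D = 4 * len / R0 := ⟨_, rfl⟩
  rw [← hD] at h4 ⊢
  omega

/-- **Whitney cover of the exits** -/
theorem exits_le {f lb lb' : ℤ × ℤ → ℤ × ℤ} {E W : Finset (ℤ × ℤ)} {G : Set (ℤ × ℤ)}
    {Row X : Finset (ℤ × ℤ)} {Sp : Finset ℤ} {R0 len m : ℕ} {a : ℤ} (hR0 : 2 ≤ R0)
    (hRa : ∀ c ∈ Row, a ≤ c.1 ∧ c.1 ≤ a + len)
    (hcol : ∀ b : ℤ, (Row.filter fun c => c.1 = b).card ≤ m)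
    (hT : ∀ c ∈ Row, ∀ M : ℤ, 1 ≤ M → Dst Sp R0 c M → OneType E W G c M)
    (hXR : X ⊆ Row)
    (hX : ∀ c ∈ X, ∀ M : ℤ, 1 ≤ M → Dst Sp R0 c M → Kst f lb lb' G M c) :
    X.card ≤ (9 * Sp.card * Nat.log 2 R0 + (4 * len / R0 + 2)) *
      KK f lb lb' E W G Row (Nat.log 2 R0) + 3 * m * Sp.card := by
  classical
  set Lm := Nat.log 2 R0 with hLm
  have hL1 : 1 ≤ Lm := Nat.log_pos (by norm_num) hR0
  set Xs := Sp.biUnion fun s => (Icc (s - 1) (s + 1)).biUnion fun b => Row.filter fun c => c.1 = b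
    with hXs
  set Ws := (winS Sp R0 ∪ winT a len R0).filter fun w => w ∈ Win E W G Row Lm with hWs
  have hcov : X ⊆ Xs ∪ Ws.biUnion fun w => kapG f lb lb' G (win Row w.1 w.2) (2 ^ w.1) := by
    intro c hc
    have hcR := hXR hc
    rw [mem_union]
    by_cases h0 : Dst Sp R0 c (2 ^ (0 + 1))
    · right
      set k := Nat.findGreatest (fun k => Dst Sp R0 c (2 ^ (k + 1))) Lm with hk
      have h1 : Dst Sp R0 c (2 ^ (k + 1)) :=
        Nat.findGreatest_spec (P := fun k => Dst Sp R0 c (2 ^ (k + 1))) (Nat.zero_le Lm) h0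
      have hkL : k + 1 ≤ Lm := by
        have h2 : 2 ^ (k + 1) ≤ R0 := by exact_mod_cast h1.1
        exact Nat.le_log_of_pow_le (by norm_num) h2
      have h3 : ¬ Dst Sp R0 c (2 ^ (k + 1 + 1)) := by
        refine Nat.findGreatest_is_greatest (P := fun k => Dst Sp R0 c (2 ^ (k + 1))) (n := Lm) ?_ ?_
        · omega
        · omega
      have hp : (0 : ℤ) < 2 ^ k := by positivity
      have hw : c ∈ win Row k (c.1 / 2 ^ k) := mem_filter.2 ⟨hcR, rfl⟩
      have hadm : (k, c.1 / 2 ^ k) ∈ Win E W G Row Lm := by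
        refine mem_filter.2 ⟨mem_biUnion.2 ⟨k, mem_range.2 (by omega),
          mem_image_of_mem _ hcR⟩, ?_⟩
        intro c' hc'
        obtain ⟨h4, h5⟩ := mem_filter.1 hc'
        simp only at h5 ⊢
        have e1 := Int.emod_add_mul_ediv c.1 (2 ^ k)
        have e2 := Int.emod_add_mul_ediv c'.1 (2 ^ k)
        have e3 := Int.emod_lt_of_pos c.1 hp
        have e4 := Int.emod_lt_of_pos c'.1 hp
        have e5 := Int.emod_nonneg c.1 hp.ne'
        have e6 := Int.emod_nonneg c'.1 hp.ne'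
        rw [h5] at e2
        refine hT c' h4 _ (by omega) ⟨?_, fun s hs => ?_⟩
        · have := h1.1
          rw [pow_succ] at this
          omega
        · have := h1.2 s hs
          rw [pow_succ] at this
          rw [le_abs] at this ⊢
          omega
      have hin : c ∈ kapG f lb lb' G (win Row k (c.1 / 2 ^ k)) (2 ^ k) := by
        refine mem_filter.2 ⟨hw, hX c hc _ (by omega) ⟨?_, fun s hs => ?_⟩⟩
        · have := h1.1
          rw [pow_succ] at this
          omega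
        · have := h1.2 s hs
          rw [pow_succ] at this
          omega
      refine mem_biUnion.2 ⟨(k, c.1 / 2 ^ k), mem_filter.2 ⟨?_, hadm⟩, hin⟩
      rw [mem_union]
      unfold Dst at h3
      rw [not_and_or] at h3
      rcases h3 with h3 | h3
      · right
        have h4 : R0 < 2 ^ (k + 1 + 1) := by
          rw [not_le] at h3
          exact_mod_cast h3
        have h5 : Lm = k + 1 := by
          have := Nat.log_lt_of_lt_pow (b := 2) (x := k + 1 + 1) (y := R0) (by omega) h4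
          omega
        unfold winT
        rw [← hLm, h5, Nat.add_sub_cancel]
        refine mem_image.2 ⟨c.1 / 2 ^ k, mem_Icc.2 ⟨?_, ?_⟩, rfl⟩
        · exact Int.ediv_le_ediv hp (hRa c hcR).1
        · exact Int.ediv_le_ediv hp (hRa c hcR).2
      · left
        push Not at h3
        obtain ⟨s, hs, h3⟩ := h3
        unfold winS
        rw [← hLm]
        refine mem_biUnion.2 ⟨k, mem_range.2 (by omega), mem_biUnion.2 ⟨s, hs,
          mem_image.2 ⟨c.1 / 2 ^ k, mem_Icc.2 ?_, rfl⟩⟩⟩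
        have h4 := abs_lt.1 h3
        have e7 : (2 : ℤ) ^ (k + 1 + 1) = 4 * 2 ^ k := by ring
        rw [e7] at h4
        constructor
        · have : (s - 4 * 2 ^ k) / 2 ^ k ≤ c.1 / 2 ^ k := Int.ediv_le_ediv hp (by omega)
          rw [Int.sub_mul_ediv_right _ _ hp.ne'] at this
          exact this
        · have : c.1 / 2 ^ k ≤ (s + 4 * 2 ^ k) / 2 ^ k := Int.ediv_le_ediv hp (by omega)
          rw [Int.add_mul_ediv_right _ _ hp.ne'] at this
          exact this
    · left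
      unfold Dst at h0
      rw [not_and_or] at h0
      rcases h0 with h0 | h0
      · exfalso
        apply h0
        norm_num
        exact_mod_cast hR0
      · push Not at h0
        obtain ⟨s, hs, h0⟩ := h0
        refine mem_biUnion.2 ⟨s, hs, mem_biUnion.2 ⟨c.1, ?_, mem_filter.2 ⟨hcR, rfl⟩⟩⟩
        rw [mem_Icc]
        norm_num at h0
        have := abs_le.1 h0
        omega
  have h1 : Xs.card ≤ 3 * m * Sp.card := by
    refine card_biUnion_le.trans ?_
    refine (sum_le_card_nsmul _ _ (3 * m) fun s _ => ?_).trans ?_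
    · refine card_biUnion_le.trans ?_
      refine (sum_le_card_nsmul _ _ m fun b _ => hcol b).trans ?_
      rw [Int.card_Icc, smul_eq_mul]
      refine Nat.mul_le_mul_right _ ?_
      omega
    · rw [smul_eq_mul, mul_comm]
  have h2 : (Ws.biUnion fun w => kapG f lb lb' G (win Row w.1 w.2) (2 ^ w.1)).card ≤
      (9 * Sp.card * Lm + (4 * len / R0 + 2)) * KK f lb lb' E W G Row Lm := by
    refine card_biUnion_le.trans ?_
    refine (sum_le_card_nsmul _ _ (KK f lb lb' E W G Row Lm) fun w hw => ?_).trans ?_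
    · exact Finset.le_sup (f := fun w : ℕ × ℤ => (kapG f lb lb' G (win Row w.1 w.2) (2 ^ w.1)).card)
        (mem_filter.1 hw).2
    · rw [smul_eq_mul]
      refine Nat.mul_le_mul_right _ ?_
      refine (card_filter_le _ _).trans ((card_union_le _ _).trans ?_)
      exact Nat.add_le_add (card_winS Sp R0) (card_winT a len R0 hR0)
  calc X.card ≤ _ := card_le_card hcov
    _ ≤ _ := card_union_le _ _
    _ ≤ 3 * m * Sp.card + _ := Nat.add_le_add h1 h2
    _ = _ := add_comm _ _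

/-- **moments of `KK`** -/
theorem KK_moment (p q B : ℕ) (hq : 1 ≤ q) : ∃ C : ℝ, 1 ≤ C ∧
    ∀ (F : Finset (ℤ × ℤ) → ℤ × ℤ → ℤ × ℤ) (lb lb' : ℤ × ℤ → ℤ × ℤ), Stp F lb lb' →
    ∀ (E W : Finset (ℤ × ℤ)) (G : Set (ℤ × ℤ)), (∀ e ∈ E, (e.1 + e.2) % 2 = 1) →
    ∀ Row : Finset (ℤ × ℤ), (∀ c ∈ Row, ∀ c' ∈ Row, |c.2 - c'.2| ≤ |c.1 - c'.1| + B) →
    ∀ (Lm : ℕ) (T : ℝ), 1 ≤ T → ((Lm * Row.card : ℕ) : ℝ) ≤ T ^ q →
    Ex (fun _ => 1 / 2) E (fun ω => (KK (F (ω ∪ W)) lb lb' E W G Row Lm : ℝ) ^ p) ≤ C * T ^ p := by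
  classical
  obtain ⟨C, hC, h⟩ := kap_moment (p + q - 1) (B + 1)
  refine ⟨1 + C, by linarith, ?_⟩
  intro F lb lb' hF E W G hE Row hRow Lm T hT1 hT
  have hqq : Pb (fun _ : ℤ × ℤ => (1 : ℝ) / 2) := fun _ => by norm_num
  have hT0 : 0 < T := by linarith
  have hTq : 0 < T ^ q := pow_pos hT0 q
  set K : ℕ × ℤ → Finset (ℤ × ℤ) → ℝ := fun w ω =>
    ((kapG (F (ω ∪ W)) lb lb' G (win Row w.1 w.2) (2 ^ w.1)).card : ℝ) with hK
  have hpt : ∀ ω ⊆ E, (KK (F (ω ∪ W)) lb lb' E W G Row Lm : ℝ) ^ p ≤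
      T ^ p + (T ^ q)⁻¹ * ∑ w ∈ Win E W G Row Lm, K w ω ^ (p + q) := by
    intro ω _
    have hs0 : 0 ≤ ∑ w ∈ Win E W G Row Lm, K w ω ^ (p + q) :=
      sum_nonneg fun w _ => pow_nonneg (Nat.cast_nonneg _) _
    rcases le_total (KK (F (ω ∪ W)) lb lb' E W G Row Lm : ℝ) T with h1 | h1
    · have := pow_le_pow_left₀ (Nat.cast_nonneg _) h1 p
      have h2 : 0 ≤ (T ^ q)⁻¹ * ∑ w ∈ Win E W G Row Lm, K w ω ^ (p + q) := by positivity
      linarith
    · have hne : (Win E W G Row Lm).Nonempty := by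
        by_contra hcon
        rw [not_nonempty_iff_eq_empty] at hcon
        unfold KK at h1
        rw [hcon, sup_empty] at h1
        simp only [bot_eq_zero', Nat.cast_zero] at h1
        linarith
      obtain ⟨w, hw, hw2⟩ := exists_mem_eq_sup _ hne
        (fun w : ℕ × ℤ => (kapG (F (ω ∪ W)) lb lb' G (win Row w.1 w.2) (2 ^ w.1)).card)
      have h2 : (KK (F (ω ∪ W)) lb lb' E W G Row Lm : ℝ) = K w ω := by
        rw [hK]; unfold KK; rw [hw2]
      have h3 : K w ω ^ (p + q) ≤ ∑ w ∈ Win E W G Row Lm, K w ω ^ (p + q) :=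
        single_le_sum (f := fun w => K w ω ^ (p + q)) (fun w _ => pow_nonneg (Nat.cast_nonneg _) _) hw
      rw [h2] at h1 ⊢
      have h4 : K w ω ^ p * T ^ q ≤ K w ω ^ (p + q) := by
        rw [pow_add]
        exact mul_le_mul_of_nonneg_left (pow_le_pow_left₀ hT0.le h1 q)
          (pow_nonneg (Nat.cast_nonneg _) _)
      have h5 : K w ω ^ p ≤ (T ^ q)⁻¹ * ∑ w ∈ Win E W G Row Lm, K w ω ^ (p + q) := by
        rw [inv_mul_eq_div, le_div_iff₀ hTq]
        exact h4.trans h3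
      have : 0 ≤ T ^ p := pow_nonneg hT0.le p
      linarith
  refine (Ex_mono hqq hpt).trans ?_
  have hmom : ∀ w ∈ Win E W G Row Lm, Ex (fun _ => 1 / 2) E (fun ω => K w ω ^ (p + q)) ≤ C := by
    intro w hw
    have hadm := (mem_filter.1 hw).2
    obtain ⟨k, -, hk⟩ := mem_biUnion.1 (mem_filter.1 hw).1
    obtain ⟨z, hz, rfl⟩ := mem_image.1 hk
    have hp : (0 : ℤ) < 2 ^ k := by positivity
    have := h F lb lb' hF E W G hE z (2 ^ k) (by omega) (win Row k (z.1 / 2 ^ k)) ?_ hadm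
    · rw [show p + q - 1 + 1 = p + q by omega] at this
      exact this
    · intro c hc
      obtain ⟨h4, h5⟩ := mem_filter.1 hc
      have e1 := Int.emod_add_mul_ediv c.1 (2 ^ k)
      have e2 := Int.emod_add_mul_ediv z.1 (2 ^ k)
      have e3 := Int.emod_lt_of_pos c.1 hp
      have e4 := Int.emod_lt_of_pos z.1 hp
      have e5 := Int.emod_nonneg c.1 hp.ne'
      have e6 := Int.emod_nonneg z.1 hp.ne'
      rw [h5] at e1
      have h6 : |c.1 - z.1| ≤ 2 ^ k := by rw [abs_le]; omega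
      have h7 := hRow c h4 z hz
      have h8 : (B : ℤ) ≤ B * 2 ^ k := by nlinarith [(Nat.cast_nonneg B : (0 : ℤ) ≤ B)]
      push_cast
      constructor <;> nlinarith
  have e : Ex (fun _ => 1 / 2) E (fun ω => T ^ p + (T ^ q)⁻¹ *
      ∑ w ∈ Win E W G Row Lm, K w ω ^ (p + q)) =
      T ^ p + (T ^ q)⁻¹ * ∑ w ∈ Win E W G Row Lm, Ex (fun _ => 1 / 2) E (fun ω => K w ω ^ (p + q)) := by
    rw [Ex_add, Ex_const, Ex_smul, Ex_sum]
  rw [e]
  have h6 : ∑ w ∈ Win E W G Row Lm, Ex (fun _ => 1 / 2) E (fun ω => K w ω ^ (p + q)) ≤ T ^ q * C := by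
    refine (sum_le_card_nsmul _ _ C hmom).trans ?_
    rw [nsmul_eq_mul]
    refine mul_le_mul_of_nonneg_right ?_ (by linarith)
    exact le_trans (by exact_mod_cast card_Win_le E W G Row Lm) hT
  have h7 : (T ^ q)⁻¹ * ∑ w ∈ Win E W G Row Lm, Ex (fun _ => 1 / 2) E (fun ω => K w ω ^ (p + q)) ≤
      C := by
    rw [inv_mul_eq_div, div_le_iff₀ hTq]
    linarith
  have h8 : 1 ≤ T ^ p := one_le_pow₀ hT1
  nlinarith

end Pool.Agent.H34.Q1
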