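import Mathlib
import Pool.Agent.H51.TA.Asym

/-!
# Exponential moments of the number of loops around a gap of the bi-infinite cylinder

`E[W^mc] ≤ P(mc = 0)^(-(W-1)) ≤ C n^(5(W-1)/48)` for `W ≥ 1`: the generating function of `mc` is
`∏ (1 + (W-1) p_k)` (squared), `p_k = λ_k/(1+λ_k+λ_k^2)`, `λ_k` the eigenvalues of the Pascal matrix.
-/

set_option autoImplicit false

open Filter Topology Finset

namespace Pool.Agent.H34.Q1

open Pool.Agent.H65.Perc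
open Pool.Agent.H51.TA
open Pool.Agent.H13.Pascal (lam lam_pos DD DD_eq DD_pascal)

theorem exists_w (τ : ℝ) : ∃ w : ℂ, w ≠ 0 ∧ (τ : ℂ) = w + w⁻¹ := by
  obtain ⟨s, hs⟩ := IsAlgClosed.exists_eq_mul_self ((τ : ℂ) ^ 2 - 4)
  have h : ((τ + s) / 2 : ℂ) * ((τ - s) / 2) = 1 := by linear_combination (-1 / 4 : ℂ) * (-hs)
  have hw : ((τ + s) / 2 : ℂ) ≠ 0 := left_ne_zero_of_mul_eq_one h
  refine ⟨(τ + s) / 2, hw, ?_⟩
  rw [eq_comm, ← sub_eq_zero]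
  have h2 : ((τ + s) / 2 : ℂ)⁻¹ = (τ - s) / 2 := by
    rw [inv_eq_of_mul_eq_one_right h]
  rw [h2]
  ring

theorem gdet_mul (n : ℕ) {w : ℂ} (hw : w ≠ 0) {τ : ℝ} (hτ : (τ : ℂ) = w + w⁻¹) :
    gdet n w * gdet n w⁻¹ =
      ((∏ k : Fin (2 * n), (1 + lam (2 * n) k * τ + lam (2 * n) k ^ 2) : ℝ) : ℂ) := by
  unfold gdet
  rw [← DD_pascal, ← DD_pascal, DD_eq, DD_eq]
  have h1 : ((w ^ n)⁻¹ * ∏ k : Fin (2 * n), (w + (lam (2 * n) k : ℂ))) *
      ((w⁻¹ ^ n)⁻¹ * ∏ k : Fin (2 * n), (w⁻¹ + (lam (2 * n) k : ℂ))) =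
      ((w ^ n)⁻¹ * (w⁻¹ ^ n)⁻¹) * ∏ k : Fin (2 * n), ((w + (lam (2 * n) k : ℂ)) *
        (w⁻¹ + (lam (2 * n) k : ℂ))) := by
    rw [Finset.prod_mul_distrib]; ring
  rw [h1]
  have h2 : (w ^ n)⁻¹ * (w⁻¹ ^ n)⁻¹ = 1 := by
    rw [inv_pow, inv_inv]
    exact inv_mul_cancel₀ (pow_ne_zero _ hw)
  rw [h2, one_mul]
  push_cast
  refine Finset.prod_congr rfl fun k _ => ?_
  rw [hτ]
  have : w * w⁻¹ = 1 := mul_inv_cancel₀ hw
  linear_combination this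

/-- the square of the generating function of `mc` -/
theorem gen_sq (n : ℕ) [NeZero n] (Ψ : (PX (2 * n) → ℝ) →ₗ[ℝ] ℝ)
    (hlim : ∀ f : PX (2 * n) → ℝ, ∀ x, Tendsto (fun M : ℕ => (SX (1 / 2) ^ M) f x) atTop (𝓝 (Ψ f)))
    (c : ℤ) (τ : ℝ) :
    (Ψ fun x => Ψ fun y => τ ^ mc (toPat x).t (toPat y).t c) ^ 2 =
      ∏ k : Fin (2 * n), ((1 + lam (2 * n) k * τ + lam (2 * n) k ^ 2) /
        (1 + lam (2 * n) k + lam (2 * n) k ^ 2)) := by
  obtain ⟨q, hq⟩ := exists_q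
  have hq0 : q ≠ 0 := by rintro rfl; norm_num at hq
  obtain ⟨w, hw, hτ⟩ := exists_w τ
  have h1 := law n Ψ hlim c τ hw hτ hq
  have h2 := law n Ψ hlim c τ (w := w⁻¹) (inv_ne_zero hw) (by rw [inv_inv, hτ]; ring) hq
  have hq1 : ((1 : ℝ) : ℂ) = q + q⁻¹ := by
    push_cast
    field_simp
    linear_combination -hq
  have h3 := law n Ψ hlim c 1 hq0 hq1 hq
  have h4 := law n Ψ hlim c 1 (w := q⁻¹) (inv_ne_zero hq0) (by rw [inv_inv, hq1]; ring) hq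
  have hg := gdet_ne_zero n hq
  have h5 : gdet n q⁻¹ = gdet n q := by
    rw [h3, div_self hg] at h4
    rw [eq_div_iff hg, one_mul] at h4
    exact h4.symm
  have h6 := gdet_mul n hw hτ
  have h7 := gdet_mul n hq0 hq1
  rw [h5] at h7
  have h8 : (((Ψ fun x => Ψ fun y => τ ^ mc (toPat x).t (toPat y).t c) ^ 2 : ℝ) : ℂ) =
      ((∏ k : Fin (2 * n), ((1 + lam (2 * n) k * τ + lam (2 * n) k ^ 2) /
        (1 + lam (2 * n) k + lam (2 * n) k ^ 2)) : ℝ) : ℂ) := by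
    rw [Finset.prod_div_distrib, Complex.ofReal_div, Complex.ofReal_pow]
    have e : (∏ k : Fin (2 * n), (1 + lam (2 * n) k * (1 : ℝ) + lam (2 * n) k ^ 2)) =
        ∏ k : Fin (2 * n), (1 + lam (2 * n) k + lam (2 * n) k ^ 2) := by
      simp only [mul_one]
    rw [e] at h7
    rw [← h6, ← h7, sq]
    conv_lhs => arg 1; rw [h1]
    conv_lhs => arg 2; rw [h2]
    rw [div_mul_div_comm]
  exact_mod_cast h8

theorem bern {p t : ℝ} (hp : p < 1) (ht : 0 ≤ t) : 1 + t * p ≤ (1 - p) ^ (-t) := by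
  rw [Real.rpow_def_of_pos (by linarith)]
  have h1 : Real.log (1 - p) ≤ -p := by
    have := Real.log_le_sub_one_of_pos (show 0 < 1 - p by linarith)
    linarith
  have h2 := Real.add_one_le_exp (t * p)
  have h3 : t * p ≤ Real.log (1 - p) * -t := by nlinarith
  linarith [Real.exp_le_exp.2 h3]

/-- `E[W^mc] ≤ P(mc = 0)^(-(W-1))` -/
theorem moment_le (n : ℕ) [NeZero n] (Ψ : (PX (2 * n) → ℝ) →ₗ[ℝ] ℝ)
    (hlim : ∀ f : PX (2 * n) → ℝ, ∀ x, Tendsto (fun M : ℕ => (SX (1 / 2) ^ M) f x) atTop (𝓝 (Ψ f)))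
    (x0 : PX (2 * n)) (c : ℤ) (W : ℝ) (hW : 1 ≤ W)
    (hpos : 0 < Ψ fun x => Ψ fun y => (0 : ℝ) ^ mc (toPat x).t (toPat y).t c) :
    (Ψ fun x => Ψ fun y => W ^ mc (toPat x).t (toPat y).t c) ≤
      (Ψ fun x => Ψ fun y => (0 : ℝ) ^ mc (toPat x).t (toPat y).t c) ^ (-(W - 1)) := by
  have h1 := gen_sq n Ψ hlim c W
  have h2 := gen_sq n Ψ hlim c 0
  set a := Ψ fun x => Ψ fun y => W ^ mc (toPat x).t (toPat y).t c with ha
  set b := Ψ fun x => Ψ fun y => (0 : ℝ) ^ mc (toPat x).t (toPat y).t c with hb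
  have ha0 : 0 ≤ a := psi_nonneg hlim x0 _ fun x => psi_nonneg hlim x0 _ fun y =>
    pow_nonneg (by linarith) _
  have key : a ^ 2 ≤ (b ^ (-(W - 1))) ^ 2 := by
    rw [h1]
    have e : (b ^ (-(W - 1))) ^ 2 = (b ^ 2) ^ (-(W - 1)) := by
      rw [← Real.rpow_natCast, ← Real.rpow_natCast, ← Real.rpow_mul hpos.le,
        ← Real.rpow_mul hpos.le, mul_comm]
    rw [e, h2, ← Real.finsetProd_rpow _ _ (fun k _ => by
      have := lam_pos (2 * n) k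
      positivity)]
    refine Finset.prod_le_prod (fun k _ => ?_) fun k _ => ?_
    · have := lam_pos (2 * n) k
      have : 0 ≤ W := by linarith
      positivity
    · have hl := lam_pos (2 * n) k
      set l := lam (2 * n) k
      have hd : 0 < 1 + l + l ^ 2 := by positivity
      have e1 : (1 + l * W + l ^ 2) / (1 + l + l ^ 2) = 1 + (W - 1) * (l / (1 + l + l ^ 2)) := by
        field_simp; ring
      have e2 : (1 + l * 0 + l ^ 2) / (1 + l + l ^ 2) = 1 - l / (1 + l + l ^ 2) := by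
        field_simp; ring
      rw [e1, e2]
      refine bern ?_ (by linarith)
      rw [div_lt_one hd]
      nlinarith [sq_nonneg l]
  exact le_of_sq_le_sq key (Real.rpow_nonneg hpos.le _)

/-- **moments of the number of loops around a gap of the cylinder** -/
theorem moment_bound (W : ℝ) (hW : 1 ≤ W) : ∃ C : ℝ, 0 < C ∧ ∀ (n : ℕ) [NeZero n]
    (Ψ : (PX (2 * n) → ℝ) →ₗ[ℝ] ℝ),
    (∀ f : PX (2 * n) → ℝ, ∀ x, Tendsto (fun M : ℕ => (SX (1 / 2) ^ M) f x) atTop (𝓝 (Ψ f))) →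
    PX (2 * n) → ∀ g : ℤ,
      Ψ (fun x => Ψ fun y => W ^ mc (toPat x).t (toPat y).t g) ≤
        C * (n : ℝ) ^ (5 / 48 * (W - 1)) := by
  obtain ⟨c, C0, hc, hC0, h⟩ := one_arm
  refine ⟨c ^ (-(W - 1)), Real.rpow_pos_of_pos hc _, ?_⟩
  intro n _ Ψ hlim x0 g
  have h1 := (h n Ψ hlim x0 g).1
  have hn : (0 : ℝ) < n := by exact_mod_cast Nat.pos_of_ne_zero (NeZero.ne n)
  have h2 : 0 < c * (n : ℝ) ^ (-(5 / 48) : ℝ) := mul_pos hc (Real.rpow_pos_of_pos hn _)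
  refine (moment_le n Ψ hlim x0 g W hW (lt_of_lt_of_le h2 h1)).trans ?_
  have h3 : (Ψ fun x => Ψ fun y => (0 : ℝ) ^ mc (toPat x).t (toPat y).t g) ^ (-(W - 1)) ≤
      (c * (n : ℝ) ^ (-(5 / 48) : ℝ)) ^ (-(W - 1)) :=
    Real.rpow_le_rpow_of_nonpos h2 h1 (by linarith)
  refine h3.trans (le_of_eq ?_)
  rw [Real.mul_rpow hc.le (Real.rpow_nonneg hn.le _), ← Real.rpow_mul hn.le]
  congr 2
  ring

end Pool.Agent.H34.Q1
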